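import Pool.Agent.helper17.CH.SpecB

/-!
# Row ch:KPF
-/

set_option autoImplicit false

namespace Pool.Agent.CH

open Finset ArithmeticFunction
open GD (kp ks)

/-- orthogonality modulo `r` -/
private theorem KPF_orth (r a j : ℕ) [NeZero r] (ha : Nat.Coprime a r) :
    ∑ ψ : DirichletCharacter ℂ r, (starRingEnd ℂ) (ψ (a : ZMod r)) * ψ (j : ZMod r) =
      if j ≡ a [MOD r] then (Nat.totient r : ℂ) else 0 := by
  have hu : IsUnit (a : ZMod r) := (ZMod.isUnit_iff_coprime a r).2 ha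
  have h5 : ∑ ψ : DirichletCharacter ℂ r, (starRingEnd ℂ) (ψ (a : ZMod r)) * ψ (j : ZMod r) =
      ∑ ψ : DirichletCharacter ℂ r, ψ (a : ZMod r)⁻¹ * ψ (j : ZMod r) := by
    refine sum_congr rfl fun χ _ => ?_
    congr 1
    have h6 : (starRingEnd ℂ) (χ (a : ZMod r)) = χ⁻¹ (a : ZMod r) := MulChar.star_apply' χ _
    rw [h6, MulChar.inv_apply]
    obtain ⟨u, hu⟩ := hu
    rw [← hu, Ring.inverse_unit, ZMod.inv_coe_unit]
  rw [h5, DirichletCharacter.sum_char_inv_mul_char_eq ℂ hu]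
  have h7 : ((a : ZMod r) = (j : ZMod r)) ↔ j ≡ a [MOD r] := by
    rw [ZMod.natCast_eq_natCast_iff]
    exact ⟨fun h => h.symm, fun h => h.symm⟩
  by_cases h : j ≡ a [MOD r]
  · rw [if_pos h, if_pos (h7.2 h)]
  · rw [if_neg h, if_neg (fun h' => h (h7.1 h'))]

open Classical in
/-- the characters modulo `M` whose conductor divides `r` -/
private theorem KPF_factor (M r : ℕ) [NeZero M] (hr : r ∣ M) (a j : ℕ) (ha : Nat.Coprime a M)
    (hj : Nat.Coprime j M) :
    ∑ χ : DirichletCharacter ℂ M with χ.conductor ∣ r,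
        (starRingEnd ℂ) (χ (a : ZMod M)) * χ (j : ZMod M) =
      if j ≡ a [MOD r] then (Nat.totient r : ℂ) else 0 := by
  have hr0 : r ≠ 0 := by
    rintro rfl
    exact NeZero.ne M (Nat.eq_zero_of_zero_dvd hr)
  have : NeZero r := ⟨hr0⟩
  rw [← KPF_orth r a j (Nat.Coprime.coprime_dvd_right hr ha)]
  symm
  refine sum_bij (fun ψ _ => DirichletCharacter.changeLevel hr ψ) ?_ ?_ ?_ ?_
  · intro ψ _
    rw [mem_filter]
    exact ⟨mem_univ _, (DirichletCharacter.mem_conductorSet_iff_conductor_dvd _ hr).1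
      (DirichletCharacter.changeLevel_factorsThrough ψ hr)⟩
  · intro ψ _ ψ' _ h
    exact DirichletCharacter.changeLevel_injective hr h
  · intro χ hχ
    rw [mem_filter] at hχ
    have h1 : DirichletCharacter.FactorsThrough χ r :=
      (DirichletCharacter.mem_conductorSet_iff_conductor_dvd _ hr).2 hχ.2
    exact ⟨h1.χ₀, mem_univ _, h1.eq_changeLevel.symm⟩
  · intro ψ _
    have h1 : ∀ b : ℕ, Nat.Coprime b M →
        (DirichletCharacter.changeLevel hr ψ) (b : ZMod M) = ψ (b : ZMod r) := by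
      intro b hb
      have h2 := DirichletCharacter.changeLevel_eq_cast_of_dvd' ψ hr (a := (b : ℤ))
        (Nat.isCoprime_iff_coprime.2 hb)
      simpa using h2
    rw [h1 a ha, h1 j hj]

theorem KPF : KPF_stmt := by
  classical
  intro R M a j hM ha
  have : NeZero M := ⟨hM.ne'⟩
  have hrhs : 0 ≤ 1 / (Nat.totient M : ℝ) *
      ∑ r' ∈ M.divisors with R < r' ∧ r' ≤ 2 * R, ∑ d ∈ r'.divisors with j ≡ a [MOD d],
        (Nat.totient d : ℝ) := by positivity
  by_cases hj : Nat.Coprime j M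
  swap
  · have h0 : kp R M a j = 0 := by
      unfold kp
      rw [sum_eq_zero, Complex.zero_re, mul_zero]
      intro χ _
      have hu : ¬ IsUnit (j : ZMod M) := fun hu => hj ((ZMod.isUnit_iff_coprime j M).1 hu)
      rw [χ.map_nonunit hu, mul_zero]
    rw [h0, abs_zero]
    exact hrhs
  obtain ⟨P, hP⟩ : ∃ P : ℕ → ℂ, P = fun d => ∑ χ : DirichletCharacter ℂ M with χ.conductor = d,
      (starRingEnd ℂ) (χ (a : ZMod M)) * χ (j : ZMod M) := ⟨_, rfl⟩
  obtain ⟨G, hG⟩ : ∃ G : ℕ → ℂ, G = fun d => if j ≡ a [MOD d] then (Nat.totient d : ℂ) else 0 :=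
    ⟨_, rfl⟩
  have hsum : ∀ n > 0, n ∈ {n : ℕ | n ∣ M} → ∑ i ∈ n.divisors, P i = G n := by
    intro n hn hnM
    rw [hG]
    show ∑ i ∈ n.divisors, P i = if j ≡ a [MOD n] then (Nat.totient n : ℂ) else 0
    rw [← KPF_factor M n hnM a j ha hj, hP]
    show ∑ i ∈ n.divisors, ∑ χ : DirichletCharacter ℂ M with χ.conductor = i,
      (starRingEnd ℂ) (χ (a : ZMod M)) * χ (j : ZMod M) = _
    have h1 : ∀ i ∈ n.divisors, ∑ χ : DirichletCharacter ℂ M with χ.conductor = i,
        (starRingEnd ℂ) (χ (a : ZMod M)) * χ (j : ZMod M) =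
        ∑ χ ∈ (univ.filter fun χ : DirichletCharacter ℂ M => χ.conductor ∣ n) with
          χ.conductor = i, (starRingEnd ℂ) (χ (a : ZMod M)) * χ (j : ZMod M) := by
      intro i hi
      congr 1
      ext χ
      simp only [mem_filter, mem_univ, true_and]
      constructor
      · intro h
        exact ⟨h ▸ Nat.dvd_of_mem_divisors hi, h⟩
      · intro h
        exact h.2
    rw [sum_congr rfl h1]
    exact sum_fiberwise_of_maps_to (fun χ hχ => Nat.mem_divisors.2 ⟨(mem_filter.1 hχ).2, hn.ne'⟩) _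
  have hinv := (sum_eq_iff_sum_mul_moebius_eq_on (f := P) (g := G) {n : ℕ | n ∣ M}
    (fun m n hmn hn => dvd_trans hmn hn)).1 hsum
  have hbound : ∀ n ∈ M.divisors, ‖P n‖ ≤ ∑ d ∈ n.divisors with j ≡ a [MOD d],
      (Nat.totient d : ℝ) := by
    intro n hn
    have hn0 : 0 < n := Nat.pos_of_mem_divisors hn
    rw [← hinv n hn0 (Nat.dvd_of_mem_divisors hn)]
    calc ‖∑ x ∈ n.divisorsAntidiagonal, ((moebius x.1 : ℤ) : ℂ) * G x.2‖ ≤
        ∑ x ∈ n.divisorsAntidiagonal, ‖((moebius x.1 : ℤ) : ℂ) * G x.2‖ := norm_sum_le _ _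
      _ ≤ ∑ x ∈ n.divisorsAntidiagonal, if j ≡ a [MOD x.2] then (Nat.totient x.2 : ℝ) else 0 := by
          refine sum_le_sum fun x _ => ?_
          rw [norm_mul]
          have h1 : ‖((moebius x.1 : ℤ) : ℂ)‖ ≤ 1 := by
            rw [Complex.norm_intCast]
            exact_mod_cast abs_moebius_le_one
          have h2 : ‖G x.2‖ = if j ≡ a [MOD x.2] then (Nat.totient x.2 : ℝ) else 0 := by
            rw [hG]
            show ‖(if j ≡ a [MOD x.2] then (Nat.totient x.2 : ℂ) else 0)‖ = _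
            split_ifs
            · rw [Complex.norm_natCast]
            · rw [norm_zero]
          rw [h2]
          have h3 : (0 : ℝ) ≤ if j ≡ a [MOD x.2] then (Nat.totient x.2 : ℝ) else 0 := by
            split_ifs <;> positivity
          exact mul_le_of_le_one_left h3 h1
      _ = ∑ d ∈ n.divisors, if j ≡ a [MOD d] then (Nat.totient d : ℝ) else 0 :=
          Nat.sum_divisorsAntidiagonal' (fun _ d => if j ≡ a [MOD d] then (Nat.totient d : ℝ) else 0)
      _ = _ := by rw [sum_filter]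
  have hkp : ∑ χ : DirichletCharacter ℂ M with R < χ.conductor ∧ χ.conductor ≤ 2 * R,
      (starRingEnd ℂ) (χ (a : ZMod M)) * χ (j : ZMod M) =
      ∑ r' ∈ M.divisors with R < r' ∧ r' ≤ 2 * R, P r' := by
    rw [hP]
    show _ = ∑ i ∈ M.divisors with R < i ∧ i ≤ 2 * R,
      ∑ χ : DirichletCharacter ℂ M with χ.conductor = i,
      (starRingEnd ℂ) (χ (a : ZMod M)) * χ (j : ZMod M)
    have h1 : ∀ i ∈ M.divisors.filter (fun i => R < i ∧ i ≤ 2 * R),
        ∑ χ : DirichletCharacter ℂ M with χ.conductor = i,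
        (starRingEnd ℂ) (χ (a : ZMod M)) * χ (j : ZMod M) =
        ∑ χ ∈ (univ.filter fun χ : DirichletCharacter ℂ M =>
          R < χ.conductor ∧ χ.conductor ≤ 2 * R) with
          χ.conductor = i, (starRingEnd ℂ) (χ (a : ZMod M)) * χ (j : ZMod M) := by
      intro i hi
      rw [mem_filter] at hi
      congr 1
      ext χ
      simp only [mem_filter, mem_univ, true_and]
      constructor
      · intro h
        exact ⟨by rw [h]; exact hi.2, h⟩
      · intro h
        exact h.2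
    rw [sum_congr rfl h1]
    refine (sum_fiberwise_of_maps_to (fun χ hχ => ?_) _).symm
    rw [mem_filter] at hχ ⊢
    exact ⟨Nat.mem_divisors.2 ⟨χ.conductor_dvd_level, hM.ne'⟩, hχ.2⟩
  unfold kp
  rw [hkp, abs_mul, abs_of_nonneg (by positivity : (0 : ℝ) ≤ 1 / (Nat.totient M : ℝ))]
  refine mul_le_mul_of_nonneg_left ?_ (by positivity)
  calc |(∑ r' ∈ M.divisors with R < r' ∧ r' ≤ 2 * R, P r').re| ≤
      ‖∑ r' ∈ M.divisors with R < r' ∧ r' ≤ 2 * R, P r'‖ := Complex.abs_re_le_norm _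
    _ ≤ ∑ r' ∈ M.divisors with R < r' ∧ r' ≤ 2 * R, ‖P r'‖ := norm_sum_le _ _
    _ ≤ _ := sum_le_sum fun r' hr' => hbound r' (mem_filter.1 hr').1

end Pool.Agent.CH
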